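import Pool.Agent.N933.MLS.Final

/-!
# MP_bada7b_pr: the modified log-Sobolev constant is not controlled by the entropy mixing time

Definitions: `Pool.Agent.N933.MLS.Defs`.

The chain lives on `{0, …, n}`; the point `0` carries almost all the mass, the points `1, …, n` form
a path with a drift towards `0`, of total mass `exp (-(3/2)^n)`. From every point the chain is at
`0` at time `24 n`, up to an error that is exponentially small in `n`; but during the first `n` units
of time a chain started at `n` is still in the path, so that its relative entropy, which is of order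
`(3/2)^n`, has hardly decreased.
-/

set_option autoImplicit false

open Matrix Finset Filter Topology
open scoped ENNReal NNReal BigOperators

namespace Pool.Agent.Results.MP_bada7b_pr.EntropyMixingVsMLS

open Pool.Agent.N933.MLS

/-- For every constant `Cent > 0` in the definition of `ρ_ent`:
(1) for every `C` there is a finite irreducible reversible chain with `1/c_MLS > C ρ_ent` and
`1/c_MLS > C τ_ent`;
(2) for all large `n` there is such a chain on `n + 1` states with `τ_ent ≤ 24 n`, `ρ_ent ≤ 24 n`
and `1/c_MLS ≥ (1/4) max_x log (1/π(x)) ≥ (1/4) (3/2)^n`. -/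
theorem result (Cent : ℝ) (hC : 0 < Cent) :
    (∀ C : ℝ≥0, ∃ (n : ℕ) (P : Matrix (Fin n) (Fin n) ℝ) (π : Fin n → ℝ),
      IsReversibleChain P π ∧ C * rhoEnt Cent P π < (cMLS P π)⁻¹ ∧
        C * tauEnt P π < (cMLS P π)⁻¹) ∧
    (∀ᶠ n : ℕ in atTop, ∃ (P : Matrix (Fin (n+1)) (Fin (n+1)) ℝ) (π : Fin (n+1) → ℝ),
      IsReversibleChain P π ∧ tauEnt P π ≤ 24 * n ∧ rhoEnt Cent P π ≤ 24 * n ∧
      (∃ x, (3/2 : ℝ)^n ≤ Real.log (1 / π x)) ∧
      ∀ x, ENNReal.ofReal (Real.log (1 / π x) / 4) ≤ (cMLS P π)⁻¹) :=
  main Cent hC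

end Pool.Agent.Results.MP_bada7b_pr.EntropyMixingVsMLS
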